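import Pool.Agent.U147.AA.Ext

/-!
# General hypersurfaces and complements: all maps of bounded complexity
-/

set_option autoImplicit false

namespace Pool.Agent.U147.AA

open Filter Topology Metric Set MvPolynomial
open Pool.Agent.V1153.UG (AlgPair Bdd GmBdd DegLe eval_homog)
open Pool.Agent.U178.KD (OnDom disc_rel span_zero gmBdd_le)

variable {n q : ℕ}

/-- Maps which are given by polynomials and defined outside of one point are constant, if there are no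
curves of the punctured line. -/
theorem const_of {E : Set (MvPolynomial (Fin (n + 1)) ℂ)} {Q : MvPolynomial (Fin (n + 1)) ℂ}
    {b : ℕ} (hQ : Q.IsHomogeneous b) {N : ℕ} (hno : ∀ P, ¬ GmBdd (Ideal.span E) Q N P)
    {U : Set ℂ} {f : ℂ → Fin (n + 1) → ℂ} (hf : OnDom E Q U f) {P : Fin (n + 1) → Polynomial ℂ}
    (hP1 : ∀ j, (P j).natDegree ≤ N)
    (hP2 : ∀ z ∈ U, ∃ c : ℂ, c ≠ 0 ∧ ∀ j, f z j = c * (P j).eval z)
    {a : ℂ} (ha : ∀ z, z ≠ a → z ∈ U) : ∀ z ∈ U, ∀ w ∈ U, ∃ c : ℂ, f w = c • f z := by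
  intro z hz w hw
  by_contra hcon
  push Not at hcon
  obtain ⟨j, k, hjk⟩ : ∃ j k, f z j * f w k ≠ f z k * f w j := by
    by_contra h1
    push Not at h1
    obtain ⟨l, hl⟩ := Function.ne_iff.1 (hf.ne z hz)
    have hl' : f z l ≠ 0 := hl
    refine hcon (f w l / f z l) (funext fun i => ?_)
    rw [Pi.smul_apply, smul_eq_mul]
    field_simp
    linear_combination h1 l i
  have hev : ∀ (t : ℂ) (j : Fin (n + 1)),
      ((P j).comp (Polynomial.X + Polynomial.C a)).eval t = (P j).eval (t + a) := by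
    intro t j
    rw [Polynomial.eval_comp, Polynomial.eval_add, Polynomial.eval_X, Polynomial.eval_C]
  have hUt : ∀ t : ℂ, t ≠ 0 → t + a ∈ U := fun t ht => ha _ fun h => ht (by
    linear_combination h)
  have hsc : ∀ t : ℂ, t ≠ 0 → ∃ c : ℂ, c ≠ 0 ∧ f (t + a) = fun j => c * (P j).eval (t + a) := by
    intro t ht
    obtain ⟨c, hc, h1⟩ := hP2 _ (hUt t ht)
    exact ⟨c, hc, funext h1⟩
  refine hno (fun j => (P j).comp (Polynomial.X + Polynomial.C a)) ⟨fun j => ?_, ?_, ?_, ?_⟩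
  · rw [Polynomial.natDegree_comp, Polynomial.natDegree_X_add_C, mul_one]
    exact hP1 j
  · rintro G hG ⟨m, hm⟩
    apply zero_off
    intro t ht
    rw [eval_aeval]
    simp only [hev]
    obtain ⟨c, hc, h1⟩ := hsc t ht
    have h2 := span_zero (hf.mem _ (hUt t ht)) G hG
    rw [h1, eval_homog hm] at h2
    exact (mul_eq_zero.1 h2).resolve_left (pow_ne_zero _ hc)
  · apply pow_of
    intro t ht
    rw [eval_aeval]
    simp only [hev]
    obtain ⟨c, hc, h1⟩ := hsc t ht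
    have h2 := hf.off _ (hUt t ht)
    rw [h1, eval_homog hQ] at h2
    exact right_ne_zero_of_mul h2
  · obtain ⟨c, hc, h1⟩ := hP2 z hz
    obtain ⟨c', hc', h2⟩ := hP2 w hw
    refine ⟨z - a, w - a, j, k, fun h3 => hjk ?_⟩
    simp only [hev, sub_add_cancel] at h3
    rw [h1, h1, h2, h2]
    linear_combination (c * c') * h3

/-- Maps to closed sets without rational curves of bounded degree, which are given by polynomials, are
constant. -/
theorem const_closed {E : Set (MvPolynomial (Fin (n + 1)) ℂ)} {N : ℕ}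
    (hno : ∀ P, ¬ GmBdd (Ideal.span E) 1 N P)
    {U : Set ℂ} {f : ℂ → Fin (n + 1) → ℂ} (hf : OnDom E 1 U f) {P : Fin (n + 1) → Polynomial ℂ}
    (hP1 : ∀ j, (P j).natDegree ≤ N)
    (hP2 : ∀ z ∈ U, ∃ c : ℂ, c ≠ 0 ∧ ∀ j, f z j = c * (P j).eval z) :
    ∀ z ∈ U, ∀ w ∈ U, ∃ c : ℂ, f w = c • f z := by
  intro z hz w hw
  by_contra hcon
  push Not at hcon
  obtain ⟨j, k, hjk⟩ : ∃ j k, f z j * f w k ≠ f z k * f w j := by
    by_contra h1
    push Not at h1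
    obtain ⟨l, hl⟩ := Function.ne_iff.1 (hf.ne z hz)
    have hl' : f z l ≠ 0 := hl
    refine hcon (f w l / f z l) (funext fun i => ?_)
    rw [Pi.smul_apply, smul_eq_mul]
    field_simp
    linear_combination h1 l i
  refine hno P ⟨hP1, ?_, ⟨1, 0, one_ne_zero, ?_⟩, ?_⟩
  · rintro G hG ⟨m, hm⟩
    apply Polynomial.eq_zero_of_infinite_isRoot
    refine (infinite_of_mem_nhds z (hf.opn.mem_nhds hz)).mono fun t ht => ?_
    rw [mem_setOf_eq, Polynomial.IsRoot.def, eval_aeval]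
    obtain ⟨c, hc, h1⟩ := hP2 t ht
    have h2 := span_zero (hf.mem t ht) G hG
    rw [show f t = fun j => c * (P j).eval t from funext h1, eval_homog hm] at h2
    exact (mul_eq_zero.1 h2).resolve_left (pow_ne_zero _ hc)
  · rw [map_one, Polynomial.C_1, pow_zero, one_mul]
  · obtain ⟨c, hc, h1⟩ := hP2 z hz
    obtain ⟨c', hc', h2⟩ := hP2 w hw
    refine ⟨z, w, j, k, fun h3 => hjk ?_⟩
    rw [h1, h1, h2, h2]
    linear_combination (c * c') * h3

/-- **General configurations of hypersurfaces.** -/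
theorem main (d : Fin q → ℕ) (Z : Finset (Fin q)) (hZ : 2 * n + 1 ≤ ∑ i, d i + Z.card)
    (s r e δ : ℕ) :
    ∃ (N : ℕ) (Φ : MvPolynomial ((i : Fin q) × {α : Fin (n + 1) →₀ ℕ // α.degree = d i}) ℂ),
      Φ ≠ 0 ∧ ∀ F : Fin q → MvPolynomial (Fin (n + 1)) ℂ, (∀ i, (F i).IsHomogeneous (d i)) →
        eval (fun x => coeff x.2.1 (F x.1)) Φ ≠ 0 → ∀ (U : Set ℂ) (f : ℂ → Fin (n + 1) → ℂ),
          OnDom {G | ∃ i ∈ Z, G = F i} (∏ i ∈ Finset.univ \ Z, F i) U f →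
          Bdd U (∏ i ∈ Finset.univ \ Z, F i) s r e δ f →
          (∀ j l, ∃ m ≤ N, AlgPair m U (fun z => f z j) fun z => f z l) ∧
          (∀ (a : ℂ) (ρ : ℝ), 0 < ρ → ball a ρ \ {a} ⊆ U → ExtAt f a ρ) ∧
          ((∀ a ∉ U, ∃ ρ : ℝ, 0 < ρ ∧ ball a ρ \ {a} ⊆ U) →
            ∃ P : Fin (n + 1) → Polynomial ℂ, (∀ j, (P j).natDegree ≤ N) ∧
              (∀ z, ∃ j, (P j).eval z ≠ 0) ∧
              ∀ z ∈ U, ∃ c : ℂ, c ≠ 0 ∧ ∀ j, f z j = c * (P j).eval z) ∧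
          ((Z = Finset.univ ∧ ∀ a ∉ U, ∃ ρ : ℝ, 0 < ρ ∧ ball a ρ \ {a} ⊆ U) ∨
              (∃ a : ℂ, ∀ z, z ≠ a → z ∈ U) → ∀ z ∈ U, ∀ w ∈ U, ∃ c : ℂ, f w = c • f z) := by
  obtain ⟨N0, hN0⟩ := disc_rel n (∑ i, d i) s r e δ
  have hle : N0 ≤ (n + 2) * N0 := Nat.le_mul_of_pos_left _ (by omega)
  obtain ⟨Φ, hΦ, h⟩ := Pool.Agent.V1153.GH.general (n := n) d Z hZ ((n + 2) * N0)
  refine ⟨(n + 2) * N0, Φ, hΦ, fun F hF hFΦ U f hf hb => ?_⟩
  have hno := h F hF hFΦ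
  have hQ : (∏ i ∈ Finset.univ \ Z, F i).IsHomogeneous (∑ i ∈ Finset.univ \ Z, d i) :=
    IsHomogeneous.prod _ _ _ fun i _ => hF i
  have hdeg : DegLe (∑ i, d i) {G | ∃ i ∈ Z, G = F i} (∏ i ∈ Finset.univ \ Z, F i) := by
    refine ⟨?_, _, Finset.sum_le_sum_of_subset (Finset.subset_univ _), hQ⟩
    rintro _ ⟨i, -, rfl⟩
    exact ⟨d i, Finset.single_le_sum (fun _ _ => Nat.zero_le _) (Finset.mem_univ i), hF i⟩
  have h1 := hN0 _ _ hdeg (fun P hP => hno P (gmBdd_le hP hle)) U f hf hb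
  have hUn : U.Nonempty := by
    obtain ⟨V, -, -, -, -, hV, hVU, -⟩ := hb
    exact hV.mono hVU
  have h3 : (∀ a ∉ U, ∃ ρ : ℝ, 0 < ρ ∧ ball a ρ \ {a} ⊆ U) →
            ∃ P : Fin (n + 1) → Polynomial ℂ, (∀ j, (P j).natDegree ≤ (n + 2) * N0) ∧
              (∀ z, ∃ j, (P j).eval z ≠ 0) ∧
              ∀ z ∈ U, ∃ c : ℂ, c ≠ 0 ∧ ∀ j, f z j = c * (P j).eval z :=
    fun hiso => poly_of hf.opn hUn hf.diff hf.ne h1 hiso
  refine ⟨fun j l => ?_, fun a ρ hρ hb => ?_, h3, ?_⟩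
  · obtain ⟨m, hm, hp⟩ := h1 j l
    exact ⟨m, hm.trans hle, hp⟩
  · refine ext_at hf.opn hf.diff hf.ne (fun j l => ?_) hρ hb
    obtain ⟨m, -, hp⟩ := h1 j l
    exact ⟨m, hp⟩
  · rintro (⟨hZu, hiso⟩ | ⟨a, ha⟩)
    · obtain ⟨P, hP1, -, hP2⟩ := h3 hiso
      have e1 : ∏ i ∈ Finset.univ \ Z, F i = 1 := by
        rw [hZu, Finset.sdiff_self, Finset.prod_empty]
      rw [e1] at hno hf
      exact const_closed hno hf hP1 hP2
    obtain ⟨P, hP1, -, hP2⟩ := h3 fun b hb' => by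
      have hba : b = a := by
        by_contra hne
        exact hb' (ha b hne)
      refine ⟨1, one_pos, fun z hz => ha z ?_⟩
      rw [← hba]
      exact hz.2
    exact const_of hQ hno hf hP1 hP2 ha

end Pool.Agent.U147.AA
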