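import Pool.Agent.U178.KD.Kob
import Pool.Agent.V1153.GH.Gen

/-!
# Algebraic maps to the projective space: isolated singularities, and maps defined outside of a
discrete set
-/

set_option autoImplicit false

namespace Pool.Agent.U147.AA

open Filter Topology Metric Set MvPolynomial
open Pool.Agent.W603.BP (PB Nz Pun on_pun growth_mero extends_of Extends PB_open)
open Pool.Agent.V1153.UG (gr_of_alg mons AlgPair pair_poly pair_scale ratio_rational poly_vec Bdd
  GmBdd DegLe eval_homog)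
open Pool.Agent.NH29.GK (HolP Phi Phi_smul Phi_inj Mat)
open Pool.Agent.U178.KD (OnDom exists_coord disc_rel span_zero gmBdd_le)

variable {n : ℕ}

/-- The map `f` to the projective space, defined in the punctured disc with the centre `a` and the
radius `ρ`, extends holomorphically to the disc. -/
def ExtAt (f : ℂ → Fin (n + 1) → ℂ) (a : ℂ) (ρ : ℝ) : Prop :=
  ∃ g : ℂ → Fin (n + 1) → ℂ, DifferentiableOn ℂ g (ball a ρ) ∧ (∀ z ∈ ball a ρ, g z ≠ 0) ∧
    ∀ z ∈ ball a ρ \ {a}, ∃ c : ℂ, f z = c • g z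

theorem comp_ne {p : Polynomial ℂ} (hp : p ≠ 0) (a : ℂ) {ρ : ℂ} (hρ : ρ ≠ 0) :
    p.comp (Polynomial.C a + Polynomial.C ρ * Polynomial.X) ≠ 0 := by
  intro h
  rcases Polynomial.comp_eq_zero_iff.1 h with h1 | ⟨-, h1⟩
  · exact hp h1
  · have h2 := congrArg (fun q : Polynomial ℂ => q.coeff 1) h1
    simp [Polynomial.coeff_C] at h2
    exact hρ h2

theorem ext_at {U : Set ℂ} {f : ℂ → Fin (n + 1) → ℂ} (hU : IsOpen U)
    (hf : DifferentiableOn ℂ f U) (hne : ∀ z ∈ U, f z ≠ 0)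
    (halg : ∀ j l, ∃ m, AlgPair m U (fun z => f z j) fun z => f z l)
    {a : ℂ} {ρ : ℝ} (hρ : 0 < ρ) (hb : ball a ρ \ {a} ⊆ U) : ExtAt f a ρ := by
  have hρ0 : (ρ : ℂ) ≠ 0 := by exact_mod_cast hρ.ne'
  have hmem : ∀ w ∈ PB 1, a + ρ * w ∈ U := by
    rintro w ⟨hw0, hw1⟩
    apply hb
    refine ⟨?_, ?_⟩
    · rw [mem_ball, dist_eq_norm, add_sub_cancel_left, norm_mul, Complex.norm_real,
        Real.norm_of_nonneg hρ.le]
      nlinarith
    · intro h
      have h1 : a + ρ * w = a := h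
      have h2 : (ρ : ℂ) * w = 0 := by linear_combination h1
      rcases mul_eq_zero.1 h2 with h3 | h3
      · exact hρ0 h3
      · exact hw0 h3
  have han : ∀ j, AnalyticOnNhd ℂ (fun z => f z j) U := fun j =>
    ((differentiableOn_pi.1 hf) j).analyticOnNhd hU
  have haff : ∀ w, AnalyticAt ℂ (fun w : ℂ => a + ρ * w) w := fun w =>
    analyticAt_const.add (analyticAt_const.mul analyticAt_id)
  have han' : ∀ j, AnalyticOnNhd ℂ (fun w => f (a + ρ * w) j) (PB 1) := fun j w hw =>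
    AnalyticAt.comp (g := fun z => f z j) (f := fun w : ℂ => a + ρ * w) (han j _ (hmem w hw))
      (haff w)
  have hex : Extends (fun w => f (a + ρ * w)) := by
    refine extends_of _ han' (fun w hw => hne _ (hmem w hw)) fun j l hj hl => ?_
    refine growth_mero (on_pun one_pos (han' j)) (on_pun one_pos (han' l)) hl ?_
    obtain ⟨m, c, hc, hcz⟩ := halg j l
    obtain ⟨p, ⟨β0, hβ0⟩, -, hp3⟩ := pair_poly c hc
    refine gr_of_alg one_pos (han' j) (han' l) hl
      (fun β => (p β).comp (Polynomial.C a + Polynomial.C (ρ : ℂ) * Polynomial.X))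
      ⟨β0, comp_ne hβ0 a hρ0⟩ fun w hw => ?_
    have h1 := hcz _ (hmem w hw)
    rw [hp3] at h1
    simpa [Polynomial.eval_comp] using h1
  obtain ⟨g, hg, hg0, hgc⟩ := hex
  have hmap : ∀ z ∈ ball a ρ, (z - a) / ρ ∈ ball (0 : ℂ) 1 := by
    intro z hz
    rw [mem_ball, dist_eq_norm] at hz
    rw [mem_ball, dist_zero_right, norm_div, Complex.norm_real, Real.norm_of_nonneg hρ.le,
      div_lt_one hρ]
    exact hz
  refine ⟨fun z => g ((z - a) / ρ), ?_, fun z hz => hg0 _ (hmap z hz), ?_⟩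
  · refine hg.comp (f := fun z : ℂ => (z - a) / ρ) ?_ hmap
    exact ((differentiable_id.sub_const a).div_const (ρ : ℂ)).differentiableOn
  · rintro z ⟨hz, hza⟩
    have hza' : z - a ≠ 0 := sub_ne_zero.2 hza
    obtain ⟨c, hc⟩ := hgc ((z - a) / ρ) ⟨hmap z hz, div_ne_zero hza' hρ0⟩
    refine ⟨c, ?_⟩
    rw [← hc]
    congr 1
    field_simp
    ring

/-- A relation which is true on a nonempty open set is true everywhere. -/
theorem rel_all {U : Set ℂ} (hU : IsOpen U) (hne : U.Nonempty) {u v : ℂ → ℂ}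
    (hu : Differentiable ℂ u) (hv : Differentiable ℂ v) {m : ℕ} (p : Fin (m + 1) → Polynomial ℂ)
    (h : ∀ z ∈ U, ∑ β : Fin (m + 1), (p β).eval z * u z ^ (β : ℕ) * v z ^ (m - β) = 0) (z : ℂ) :
    ∑ β : Fin (m + 1), (p β).eval z * u z ^ (β : ℕ) * v z ^ (m - β) = 0 := by
  obtain ⟨z0, hz0⟩ := hne
  have h1 : Differentiable ℂ fun z => ∑ β : Fin (m + 1),
      (p β).eval z * u z ^ (β : ℕ) * v z ^ (m - β) :=
    Differentiable.fun_sum fun β _ => (((p β).differentiable).mul (hu.pow _)).mul (hv.pow _)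
  have h2 : AnalyticOnNhd ℂ (fun z => ∑ β : Fin (m + 1),
      (p β).eval z * u z ^ (β : ℕ) * v z ^ (m - β)) univ := fun z _ => h1.analyticAt z
  refine h2.eqOn_zero_of_preconnected_of_eventuallyEq_zero isPreconnected_univ (mem_univ z0) ?_
    (mem_univ z)
  filter_upwards [hU.mem_nhds hz0] with w hw
  exact h w hw

/-- **Algebraic maps which are defined outside of a discrete set are given by polynomials.** -/
theorem poly_of {U : Set ℂ} {f : ℂ → Fin (n + 1) → ℂ} (hU : IsOpen U) (hUn : U.Nonempty)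
    (hf : DifferentiableOn ℂ f U) (hne : ∀ z ∈ U, f z ≠ 0) {N : ℕ}
    (halg : ∀ j l, ∃ m ≤ N, AlgPair m U (fun z => f z j) fun z => f z l)
    (hiso : ∀ a ∉ U, ∃ ρ : ℝ, 0 < ρ ∧ ball a ρ \ {a} ⊆ U) :
    ∃ P : Fin (n + 1) → Polynomial ℂ, (∀ j, (P j).natDegree ≤ (n + 2) * N) ∧
      (∀ z, ∃ j, (P j).eval z ≠ 0) ∧
      ∀ z ∈ U, ∃ c : ℂ, c ≠ 0 ∧ ∀ j, f z j = c * (P j).eval z := by
  classical
  have halg' : ∀ j l, ∃ m, AlgPair m U (fun z => f z j) fun z => f z l := fun j l => by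
    obtain ⟨m, -, h⟩ := halg j l
    exact ⟨m, h⟩
  have h1 : ∀ a : ℂ, ∃ (ρ : ℝ) (g : ℂ → Fin (n + 1) → ℂ), a ∉ U → 0 < ρ ∧ ball a ρ \ {a} ⊆ U ∧
      DifferentiableOn ℂ g (ball a ρ) ∧ (∀ z ∈ ball a ρ, g z ≠ 0) ∧
        ∀ z ∈ ball a ρ \ {a}, ∃ c : ℂ, f z = c • g z := by
    intro a
    by_cases ha : a ∈ U
    · exact ⟨1, fun _ => 0, fun h => absurd ha h⟩
    · obtain ⟨ρ, hρ, hb⟩ := hiso a ha
      obtain ⟨g, h2, h3, h4⟩ := ext_at hU hf hne halg' hρ hb
      exact ⟨ρ, g, fun _ => ⟨hρ, hb, h2, h3, h4⟩⟩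
  choose ρ g hg using h1
  let H : ℂ → Mat n := fun z => if z ∈ U then Phi (f z) else Phi (g z z)
  have hH : HolP univ H := by
    intro z _
    by_cases hz : z ∈ U
    · refine ⟨U, f, hU, hz, hf, fun w hw => ⟨hne w hw, ?_⟩⟩
      exact if_pos hw
    · obtain ⟨hρ, hb, h2, h3, h4⟩ := hg z hz
      refine ⟨ball z (ρ z), g z, isOpen_ball, mem_ball_self hρ, h2, fun w hw => ⟨h3 w hw, ?_⟩⟩
      by_cases hwz : w = z
      · subst hwz
        exact if_neg hz
      · have hwU : w ∈ U := hb ⟨hw, hwz⟩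
        obtain ⟨c, hc⟩ := h4 w ⟨hw, hwz⟩
        have hc0 : c ≠ 0 := by
          rintro rfl
          rw [zero_smul] at hc
          exact hne w hwU hc
        change (if w ∈ U then Phi (f w) else Phi (g w w)) = Phi (g z w)
        rw [if_pos hwU, hc, Phi_smul hc0]
  obtain ⟨G, hG, hG0, hGH⟩ := exists_coord hH
  have hrel : ∀ z ∈ U, ∃ c : ℂ, c ≠ 0 ∧ f z = c • G z := by
    intro z hz
    refine Phi_inj (hG0 z) (hne z hz) ?_
    rw [← hGH z]
    exact if_pos hz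
  have hrel' : ∀ z : ℂ, ∃ c : ℂ, z ∈ U → c ≠ 0 ∧ f z = c • G z := by
    intro z
    by_cases hz : z ∈ U
    · obtain ⟨c, h2⟩ := hrel z hz
      exact ⟨c, fun _ => h2⟩
    · exact ⟨0, fun h => absurd h hz⟩
  choose c hc using hrel'
  have hGd : ∀ j, Differentiable ℂ fun z => G z j := fun j => (differentiable_pi.1 hG) j
  obtain ⟨l, hl⟩ : ∃ l, G 0 l ≠ 0 := Function.ne_iff.1 (hG0 0)
  obtain ⟨P, hP1, hP2⟩ := poly_vec hGd hG0 l ⟨0, hl⟩ (H := N) (by
    intro j
    obtain ⟨m, hm, hp⟩ := halg j l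
    have h2 : AlgPair m U (fun z => G z j) fun z => G z l := by
      refine pair_scale (g := c) (fun z hz => (hc z hz).1) ?_
      obtain ⟨k, hk, hkz⟩ := hp
      refine ⟨k, hk, fun z hz => ?_⟩
      have h3 : ∑ i, k i * mons m z (f z j) (f z l) i = 0 := hkz z hz
      rw [(hc z hz).2] at h3
      exact h3
    obtain ⟨k, hk, hkz⟩ := h2
    obtain ⟨p, hp1, hp2, hp3⟩ := pair_poly k hk
    refine ratio_rational (hGd j) (hGd l) ⟨0, hl⟩ p hp1 (fun β => (hp2 β).trans hm) ?_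
    refine rel_all hU hUn (hGd j) (hGd l) p fun z hz => ?_
    rw [← hp3]
    exact hkz z hz)
  refine ⟨P, hP1, fun z => ?_, fun z hz => ?_⟩
  · obtain ⟨j, hj⟩ := Function.ne_iff.1 (hG0 z)
    obtain ⟨c', hc', h2⟩ := hP2 z
    refine ⟨j, fun h0 => hj ?_⟩
    rw [h2 j, h0, mul_zero]
    rfl
  · obtain ⟨c', hc', h2⟩ := hP2 z
    refine ⟨c z * c', mul_ne_zero (hc z hz).1 hc', fun j => ?_⟩
    rw [(hc z hz).2, Pi.smul_apply, smul_eq_mul, h2 j, mul_assoc]

theorem zero_off {p : Polynomial ℂ} (h : ∀ t : ℂ, t ≠ 0 → p.eval t = 0) : p = 0 := by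
  have h1 : Polynomial.X * p = 0 := by
    apply Polynomial.funext
    intro t
    rw [Polynomial.eval_mul, Polynomial.eval_X, Polynomial.eval_zero]
    by_cases ht : t = 0
    · rw [ht, zero_mul]
    · rw [h t ht, mul_zero]
  exact (mul_eq_zero.1 h1).resolve_left Polynomial.X_ne_zero

theorem pow_of {p : Polynomial ℂ} (h : ∀ t : ℂ, t ≠ 0 → p.eval t ≠ 0) :
    ∃ (c : ℂ) (k : ℕ), c ≠ 0 ∧ p = Polynomial.C c * Polynomial.X ^ k := by
  have hp : p ≠ 0 := by
    rintro rfl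
    exact h 1 one_ne_zero (Polynomial.eval_zero)
  obtain ⟨r, hr, hnd⟩ := Polynomial.exists_eq_pow_rootMultiplicity_mul_and_not_dvd p hp 0
  rw [map_zero, sub_zero] at hr hnd
  have h1 : ∀ t : ℂ, r.eval t ≠ 0 := by
    intro t ht
    by_cases ht0 : t = 0
    · apply hnd
      rw [ht0] at ht
      rw [Polynomial.X_dvd_iff, Polynomial.coeff_zero_eq_eval_zero]
      exact ht
    · apply h t ht0
      rw [hr, Polynomial.eval_mul, ht, mul_zero]
  have h2 : r.degree = 0 := by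
    by_contra h3
    obtain ⟨t, ht⟩ := IsAlgClosed.exists_root r h3
    exact h1 t ht
  rw [Polynomial.eq_C_of_degree_eq_zero h2] at hr
  refine ⟨r.coeff 0, p.rootMultiplicity 0, ?_, ?_⟩
  · rw [Polynomial.coeff_zero_eq_eval_zero]
    exact h1 0
  · rw [mul_comm]
    exact hr

theorem eval_aeval (P : Fin (n + 1) → Polynomial ℂ) (G : MvPolynomial (Fin (n + 1)) ℂ) (t : ℂ) :
    (aeval P G).eval t = eval (fun j => (P j).eval t) G := by
  have h : (Polynomial.evalRingHom t).comp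
      (aeval P : MvPolynomial (Fin (n + 1)) ℂ →ₐ[ℂ] Polynomial ℂ).toRingHom =
      eval (fun j => (P j).eval t) := by
    apply MvPolynomial.ringHom_ext
    · intro r
      simp
    · intro i
      simp
  exact DFunLike.congr_fun h G

end Pool.Agent.U147.AA
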